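import Pool.Agent.W500.CS.Stm2

set_option autoImplicit false

open MeasureTheory Metric Set Filter Topology

namespace Pool.Agent.W358.CQ.GLUE

open Pool.Agent.W500.CS

theorem main : S_GLUE := by
  classical
  intro Ω u hΩ hloc
  choose! r hr L hL hae using hloc
  -- agreement on overlaps
  have hov : ∀ z ∈ Ω, ∀ z' ∈ Ω, EqOn (L z) (L z') (ball z (r z) ∩ ball z' (r z')) := by
    intro z hz z' hz'
    have hU : IsOpen (ball z (r z) ∩ ball z' (r z')) := isOpen_ball.inter isOpen_ball
    refine Measure.eqOn_open_of_ae_eq (μ := (volume : Measure ℂ)) ?_ hU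
      ((hL z hz).mono inter_subset_left) ((hL z' hz').mono inter_subset_right)
    rw [Filter.EventuallyEq, ae_restrict_iff' hU.measurableSet]
    filter_upwards [hae z hz, hae z' hz'] with w h1 h2 hw
    rw [← h1 hw.1, ← h2 hw.2]
  set v : ℂ → ℝ := fun w => L w w with hv
  have hvL : ∀ z ∈ Ω, ∀ w ∈ Ω, w ∈ ball z (r z) → v w = L z w := by
    intro z hz w hw hwz
    exact hov w hw z hz ⟨mem_ball_self (hr w hw), hwz⟩
  refine ⟨v, ?_, ?_⟩
  · intro z hz
    have hmem : Ω ∩ ball z (r z) ∈ 𝓝 z :=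
      inter_mem (hΩ.mem_nhds hz) (ball_mem_nhds z (hr z hz))
    have h1 : ContinuousAt (L z) z := (hL z hz).continuousAt (ball_mem_nhds z (hr z hz))
    have h2 : v =ᶠ[𝓝 z] L z := by
      filter_upwards [hmem] with w hw
      exact hvL z hz w hw.1 hw.2
    exact (h1.congr h2.symm).continuousWithinAt
  · have hnull : (volume : Measure ℂ) {w | ¬ (w ∈ Ω → u w = v w)} = 0 := by
      apply measure_null_of_locally_null
      intro x hx
      have hxΩ : x ∈ Ω := by
        by_contra hc
        exact hx fun h => absurd h hc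
      refine ⟨{w | ¬ (w ∈ Ω → u w = v w)} ∩ ball x (r x),
        inter_mem_nhdsWithin _ (ball_mem_nhds x (hr x hxΩ)), ?_⟩
      refine measure_mono_null ?_ (ae_iff.mp (hae x hxΩ))
      rintro w ⟨hw, hwb⟩ hc
      apply hw
      intro hwΩ
      rw [hc hwb, hvL x hxΩ w hwΩ hwb]
    exact ae_iff.mpr hnull

end Pool.Agent.W358.CQ.GLUE
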